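import Mathlib

namespace Pool.Agent.Results.MP_12469f_co.Lower

open Finset

/-- no multiset of `k` elements has all its non-empty subset sums in `A` -/
def CubeFree (k : ℕ) {N : ℕ} (A : Finset (ZMod N)) : Prop :=
  ¬ ∃ a : Fin k → ZMod N, ∀ I : Finset (Fin k), I.Nonempty → ∑ i ∈ I, a i ∈ A

def MaxFree (k : ℕ) {N : ℕ} (A : Finset (ZMod N)) : Prop :=
  CubeFree k A ∧ ∀ x, x ∉ A → ¬ CubeFree k (insert x A)

noncomputable def s (n k : ℕ) : ℕ :=
  sInf {m | ∃ A : Finset (ZMod (2 ^ n)), MaxFree k A ∧ A.card = m}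

variable {N : ℕ} [NeZero N]

lemma extend {k : ℕ} (B : Finset (ZMod N)) (hB : CubeFree k B) :
    ∃ A, B ⊆ A ∧ MaxFree k A := by
  classical
  obtain ⟨A, hA, hmax⟩ := exists_max_image
    ((univ : Finset (Finset (ZMod N))).filter (fun A => B ⊆ A ∧ CubeFree k A)) card
    ⟨B, by simp [hB]⟩
  obtain ⟨h1, h2⟩ := (mem_filter.1 hA).2
  refine ⟨A, h1, h2, fun x hx hI => ?_⟩
  have := hmax (insert x A) (mem_filter.2 ⟨mem_univ _, h1.trans (subset_insert _ _), hI⟩)
  rw [card_insert_of_notMem hx] at this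
  omega

def mid (N : ℕ) [NeZero N] (q : ℕ) : Finset (ZMod N) :=
  univ.filter (fun x => q < x.val ∧ x.val + q < N)

lemma cast_mem {q v : ℕ} (h1 : q < v) (h2 : v + q < N) : (v : ZMod N) ∈ mid N q := by
  simp only [mid, mem_filter, mem_univ, true_and]
  rw [ZMod.val_natCast, Nat.mod_eq_of_lt (by omega)]; exact ⟨h1, h2⟩

lemma neg_mem {q : ℕ} {x : ZMod N} (h : x ∈ mid N q) : -x ∈ mid N q := by
  simp only [mid, mem_filter, mem_univ, true_and] at h ⊢
  have : x ≠ 0 := by rintro rfl; simp at h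
  rw [ZMod.neg_val, if_neg this]; omega

lemma small_not {q t : ℕ} (h : t ≤ q) : (t : ZMod N) ∉ mid N q := by
  simp only [mid, mem_filter, mem_univ, true_and]
  rw [ZMod.val_natCast]
  have := Nat.mod_le t N
  omega

lemma mid_free {k q : ℕ} (hk0 : k ≠ 0) (h : N < (k + 1) * (q + 1)) : CubeFree k (mid N q) := by
  rintro ⟨a, ha⟩
  let p : Fin (k + 1) → ZMod N := fun i => ∑ l ∈ univ.filter (fun l : Fin k => l.1 < i.1), a l
  have hp : ∀ i j : Fin (k + 1), i < j → p j - p i ∈ mid N q := by
    intro i j hij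
    have hij' : i.1 < j.1 := hij
    have hsub : univ.filter (fun l : Fin k => l.1 < i.1) ⊆ univ.filter (fun l : Fin k => l.1 < j.1) := by
      intro l; simp only [mem_filter, mem_univ, true_and]; omega
    have := ha (univ.filter (fun l : Fin k => l.1 < j.1) \ univ.filter (fun l : Fin k => l.1 < i.1))
      ⟨⟨i.1, by omega⟩, by simp [hij']⟩
    rwa [sum_sdiff_eq_sub hsub] at this
  have key : ∀ (i j : Fin (k + 1)) (t u : ℕ), t ≤ q → u ≤ q → i < j → p i + t ≠ p j + u := by
    intro i j t u ht hu hij e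
    rcases le_total t u with h' | h'
    · refine small_not (N := N) (show u - t ≤ q by omega) ?_
      have := neg_mem (hp i j hij)
      convert this using 1
      rw [Nat.cast_sub h']; linear_combination -e
    · refine small_not (N := N) (show t - u ≤ q by omega) ?_
      convert hp i j hij using 1
      rw [Nat.cast_sub h']; linear_combination e
  by_cases hq : q < N
  · have hinj : Function.Injective (fun z : Fin (k + 1) × Fin (q + 1) => p z.1 + (z.2.1 : ZMod N)) := by
      rintro ⟨i, t⟩ ⟨j, u⟩ e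
      simp only at e
      rcases lt_trichotomy i j with h' | h' | h'
      · exact absurd e (key i j t u (by omega) (by omega) h')
      · subst h'
        have e2 := congrArg ZMod.val (add_left_cancel e)
        rw [ZMod.val_natCast, ZMod.val_natCast, Nat.mod_eq_of_lt (by omega),
          Nat.mod_eq_of_lt (by omega)] at e2
        exact Prod.ext rfl (Fin.ext e2)
      · exact absurd e.symm (key j i u t (by omega) (by omega) h')
    have := Fintype.card_le_of_injective _ hinj
    simp only [Fintype.card_prod, Fintype.card_fin, ZMod.card] at this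
    omega
  · rcases Nat.eq_zero_or_pos k with rfl | hk
    · exact hk0 rfl
    · have := ha {⟨0, hk⟩} (singleton_nonempty _)
      simp only [mid, mem_filter] at this
      omega

lemma blocked {k : ℕ} (A : Finset (ZMod N)) (x c : ZMod N) (hx : x ∈ A)
    (h : ∀ j : ℕ, 1 ≤ j → j ≤ k → (j : ZMod N) * c ∈ A ∧ x + j * c ∈ A) : ¬ CubeFree (k + 1) A := by
  refine fun hA => hA ⟨fun i => if i = 0 then x else c, fun I hI => ?_⟩
  have e : ∑ i ∈ I.erase 0, (if i = 0 then x else c) = ((I.erase 0).card : ZMod N) * c := by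
    rw [sum_congr rfl (fun i hi => if_neg (ne_of_mem_erase hi))]; simp
  have hle : (I.erase 0).card ≤ k := by
    have := card_le_card (erase_subset_erase 0 (subset_univ I))
    simpa using this
  by_cases h0 : (0 : Fin (k + 1)) ∈ I
  · rw [← add_sum_erase _ _ h0, e, if_pos rfl]
    rcases Nat.eq_zero_or_pos (I.erase 0).card with h1 | h1
    · rw [h1]; simpa using hx
    · exact (h _ h1 hle).2
  · rw [erase_eq_of_notMem h0] at e hle
    rw [e]; exact (h _ hI.card_pos hle).1

lemma upper (k : ℕ) : ∃ A : Finset (ZMod N), MaxFree (k + 1) A ∧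
    A.card + 2 * (N / (k + 2)) + 1 ≤ N + 2 * (k + 1) := by
  set q := N / (k + 2) with hq
  have h1 : N < (k + 1 + 1) * (q + 1) := Nat.lt_mul_div_succ N (by omega)
  have h2 : (k + 2) * q ≤ N := Nat.mul_div_le N _
  obtain ⟨A, hBA, hA⟩ := extend _ (mid_free (N := N) (by omega) h1)
  refine ⟨A, hA, ?_⟩
  by_cases hk : q < k + 1
  · have := card_le_univ A
    rw [ZMod.card] at this; omega
  have hm : ∀ v j : ℕ, v + (k + 1) ≤ q → 1 ≤ j → j ≤ k → ((v + j * (q + 1) : ℕ) : ZMod N) ∈ mid N q := by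
    intro v j hv hj hjk
    have a1 : 1 * (q + 1) ≤ j * (q + 1) := Nat.mul_le_mul_right _ hj
    have a2 : j * (q + 1) ≤ k * (q + 1) := Nat.mul_le_mul_right _ hjk
    refine cast_mem (by omega) (by nlinarith)
  have hsub : A ⊆ (Ioo (q - (k + 1)) (N - (q - (k + 1)))).image (fun v : ℕ => (v : ZMod N)) := by
    intro x hx
    refine mem_image.2 ⟨x.val, ?_, ZMod.natCast_zmod_val x⟩
    rw [mem_Ioo]
    have hlt := ZMod.val_lt x
    constructor
    · by_contra hc
      refine blocked A x ((q + 1 : ℕ) : ZMod N) hx (fun j hj hjk => ⟨hBA ?_, hBA ?_⟩) hA.1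
      · simpa using hm 0 j (by omega) hj hjk
      · have := hm x.val j (by omega) hj hjk
        rwa [Nat.cast_add, Nat.cast_mul, ZMod.natCast_zmod_val] at this
    · by_contra hc
      refine blocked A x (-((q + 1 : ℕ) : ZMod N)) hx (fun j hj hjk => ⟨hBA ?_, hBA ?_⟩) hA.1
      · have := neg_mem (hm 0 j (by omega) hj hjk)
        rw [zero_add, Nat.cast_mul] at this
        convert this using 1; ring
      · have := neg_mem (hm (N - x.val) j (by omega) hj hjk)
        rw [Nat.cast_add, Nat.cast_mul, Nat.cast_sub hlt.le, ZMod.natCast_zmod_val,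
          ZMod.natCast_self] at this
        convert this using 1; ring
  have h3 := (card_le_card hsub).trans card_image_le
  rw [Nat.card_Ioo] at h3
  have h4 : 2 * q ≤ N := by nlinarith
  have h5 := NeZero.pos N
  omega

lemma dbl (A : Finset (ZMod N)) :
    (univ.filter (fun x : ZMod N => x + x ∈ A)).card ≤ A.card * 2 := by
  have := card_le_card_of_injOn (s := univ.filter (fun x : ZMod N => x + x ∈ A))
    (t := A ×ˢ (univ : Finset Bool)) (fun x => (x + x, decide (x.val + x.val < N)))
    (fun x hx => mem_coe.2 (mem_product.2 ⟨(mem_filter.1 (mem_coe.1 hx)).2, mem_univ _⟩)) (fun x _ y _ e => by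
      simp only [Prod.mk.injEq, decide_eq_decide] at e
      have e2 := congrArg ZMod.val e.1
      have hx := ZMod.val_lt x
      have hy := ZMod.val_lt y
      rw [ZMod.val_add, ZMod.val_add] at e2
      apply ZMod.val_injective
      by_cases h : x.val + x.val < N
      · rw [Nat.mod_eq_of_lt h, Nat.mod_eq_of_lt (e.2.1 h)] at e2; omega
      · have h' : ¬ y.val + y.val < N := fun h' => h (e.2.2 h')
        rw [Nat.mod_eq_sub_mod (by omega), Nat.mod_eq_of_lt (by omega),
          Nat.mod_eq_sub_mod (by omega : y.val + y.val ≥ N), Nat.mod_eq_of_lt (by omega)] at e2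
        omega)
  simpa using this

open Pointwise in
lemma lower {k : ℕ} (hk : 2 ≤ k) (A : Finset (ZMod N)) (hA : MaxFree k A) :
    N ≤ 2 * A.card ^ 2 + 3 * A.card + 1 := by
  have h0 : (0 : ZMod N) ∉ A := fun h => hA.1 ⟨fun _ => 0, fun I _ => by simpa using h⟩
  have hsub : (univ : Finset (ZMod N)) ⊆
      insert 0 (A ∪ (A + A) ∪ (A - A) ∪ univ.filter (fun x : ZMod N => x + x ∈ A)) := by
    intro x _
    by_contra hc
    simp only [mem_insert, mem_union, not_or, mem_filter, mem_univ, true_and] at hc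
    obtain ⟨hx0, ⟨⟨hxA, hx1⟩, hx2⟩, hx3⟩ := hc
    have h1 := hA.2 x hxA
    unfold CubeFree at h1
    push Not at h1
    obtain ⟨a, ha⟩ := h1
    have hs : ∀ i, a i = x ∨ a i ∈ A := fun i => by simpa using ha {i} (singleton_nonempty _)
    by_cases h2 : ∃ i, a i = x
    · obtain ⟨i, hi⟩ := h2
      haveI : Nontrivial (Fin k) := Fin.nontrivial_iff_two_le.2 hk
      obtain ⟨j, hj⟩ := exists_ne i
      have h3 := ha {i, j} (by simp)
      rw [sum_pair hj.symm, hi, mem_insert] at h3
      rcases hs j with h4 | h4 <;> rcases h3 with h3 | h3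
      · rw [h4] at h3; exact hx0 (by linear_combination h3)
      · rw [h4] at h3; exact hx3 h3
      · exact h0 ((by linear_combination h3 : a j = 0) ▸ h4)
      · exact hx2 (mem_sub.2 ⟨_, h3, _, h4, by ring⟩)
    · push Not at h2
      have hs' : ∀ i, a i ∈ A := fun i => (hs i).resolve_left (h2 i)
      refine hA.1 ⟨a, fun I hI => ?_⟩
      rcases mem_insert.1 (ha I hI) with h3 | h3
      · exfalso
        obtain ⟨i, hi⟩ := hI
        rw [← add_sum_erase _ _ hi] at h3
        rcases (I.erase i).eq_empty_or_nonempty with h4 | h4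
        · rw [h4] at h3; exact h2 i (by simpa using h3)
        · rcases mem_insert.1 (ha _ h4) with h5 | h5
          · exact h0 ((by linear_combination h3 - h5 : a i = 0) ▸ hs' i)
          · exact hx1 (mem_add.2 ⟨_, hs' i, _, h5, h3⟩)
      · exact h3
  have c0 := card_le_card hsub
  have c1 := card_insert_le (0 : ZMod N)
    (A ∪ (A + A) ∪ (A - A) ∪ univ.filter (fun x : ZMod N => x + x ∈ A))
  have c2 := card_union_le (A ∪ (A + A) ∪ (A - A)) (univ.filter (fun x : ZMod N => x + x ∈ A))
  have c3 := card_union_le (A ∪ (A + A)) (A - A)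
  have c4 := card_union_le A (A + A)
  have c5 : (A + A).card ≤ A.card * A.card := card_add_le
  have c6 : (A - A).card ≤ A.card * A.card := card_sub_le
  have c7 := dbl A
  rw [card_univ, ZMod.card] at c0
  rw [sq]; omega

theorem joined (n k : ℕ) (hk : 2 ≤ k) :
    (k + 1) * s n k ≤ (k - 1) * 2 ^ n + (k + 1) * (2 * k + 1) ∧
    2 ^ n ≤ 2 * s n k ^ 2 + 3 * s n k + 1 := by
  obtain ⟨j, rfl⟩ : ∃ j, k = j + 1 + 1 := ⟨k - 2, by omega⟩
  obtain ⟨A, hA, h1⟩ := upper (N := 2 ^ n) (j + 1)
  constructor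
  · have h2 : s n (j + 1 + 1) ≤ A.card := Nat.sInf_le ⟨A, hA, rfl⟩
    have h3 : 2 ^ n < (j + 1 + 2) * (2 ^ n / (j + 1 + 2) + 1) := Nat.lt_mul_div_succ _ (by omega)
    simp only [Nat.add_sub_cancel]
    generalize 2 ^ n / (j + 1 + 2) = q at *
    generalize 2 ^ n = M at *
    have h4 : s n (j + 1 + 1) + 2 * q + 1 ≤ M + 2 * (j + 1 + 1) := by omega
    have h5 := Nat.mul_le_mul_left (j + 1 + 2) h4
    nlinarith
  · obtain ⟨B, hB, e⟩ := Nat.sInf_mem
      (s := {m | ∃ A : Finset (ZMod (2 ^ n)), MaxFree (j + 1 + 1) A ∧ A.card = m}) ⟨_, A, hA, rfl⟩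
    unfold s; rw [← e]; exact lower hk B hB

theorem result (n k : ℕ) (hk : 2 ≤ k) : 2 ^ n ≤ 2 * s n k ^ 2 + 3 * s n k + 1 :=
  (joined n k hk).2

end Pool.Agent.Results.MP_12469f_co.Lower
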